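import Pool.Agent.Helper51.LPS.St

/-! # Project LPS, module EXT: a trigonometric polynomial constant on an interval is constant -/

set_option autoImplicit false

namespace Pool.Agent.Helper36.LPS

open MeasureTheory Pool.Helper51.PSB Pool.Helper51.LPS

private noncomputable def Coef_N (k a b : ℕ) (P Q : MvPolynomial (Fin (k + 3)) ℝ) (w : Fin (k + 3) → Fin (k + 3) → ℝ)
    (s : Fin (k + 2) → ℝ) : Matrix (Fin (k + 2)) (Fin (k + 2)) (Polynomial ℂ) :=
  (Polynomial.X : Polynomial ℂ) ^ (max a b - a) • MatX a P w s +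
      (Polynomial.X : Polynomial ℂ) ^ (max a b - b) • MatX b Q w s

private theorem Coef_deg (hTop : StTop) (hPolA : StPolA) (k a b : ℕ) (P Q : MvPolynomial (Fin (k + 3)) ℝ)
    (hP : P.IsHomogeneous a) (hQ : Q.IsHomogeneous b) (w : Fin (k + 3) → Fin (k + 3) → ℝ) (s : Fin (k + 2) → ℝ) :
    (Coef_N k a b P Q w s).det.natDegree ≤ (k + 2) * (2 * max a b) := by
  refine (hPolA (k + 2) (2 * max a b) (Coef_N k a b P Q w s) ?_).1
  intro i j
  have h1 := (hTop k a P hP w s i j).1
  have h2 := (hTop k b Q hQ w s i j).1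
  have ha : a ≤ max a b := le_max_left _ _
  have hb : b ≤ max a b := le_max_right _ _
  simp only [Coef_N, Matrix.add_apply, Matrix.smul_apply, smul_eq_mul]
  refine (Polynomial.natDegree_add_le _ _).trans (max_le ?_ ?_)
  · refine (Polynomial.natDegree_mul_le).trans ?_
    rw [Polynomial.natDegree_X_pow]
    omega
  · refine (Polynomial.natDegree_mul_le).trans ?_
    rw [Polynomial.natDegree_X_pow]
    omega

private theorem Coef_eval (hEv : StEv) (k a b : ℕ) (P Q : MvPolynomial (Fin (k + 3)) ℝ)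
    (hP : P.IsHomogeneous a) (hQ : Q.IsHomogeneous b) (w : Fin (k + 3) → Fin (k + 3) → ℝ) (s : Fin (k + 2) → ℝ) (φ : ℝ) :
    (Coef_N k a b P Q w s).det.eval (Complex.exp (φ * Complex.I)) =
      Complex.exp (φ * Complex.I) ^ (max a b * (k + 2)) *
        (((Mat a P (frame w φ) s + Mat b Q (frame w φ) s).det : ℝ) : ℂ) := by
  set z : ℂ := Complex.exp (φ * Complex.I) with hz
  have ha : a ≤ max a b := le_max_left _ _
  have hb : b ≤ max a b := le_max_right _ _
  have key : (Polynomial.evalRingHom z).mapMatrix (Coef_N k a b P Q w s) =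
      (z ^ (max a b)) • (Complex.ofRealHom.mapMatrix (Mat a P (frame w φ) s + Mat b Q (frame w φ) s)) := by
    ext i j
    have e1 := hEv k a P hP w s φ i j
    have e2 := hEv k b Q hQ w s φ i j
    rw [← hz] at e1 e2
    simp only [Coef_N, RingHom.mapMatrix_apply, Matrix.map_apply, Matrix.add_apply, Matrix.smul_apply, smul_eq_mul,
      Polynomial.coe_evalRingHom, Polynomial.eval_add, Polynomial.eval_mul, Polynomial.eval_pow, Polynomial.eval_X, e1, e2,
      Complex.ofRealHom_eq_coe, Complex.ofReal_add]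
    rw [← mul_assoc, ← mul_assoc, ← pow_add, ← pow_add, Nat.sub_add_cancel ha, Nat.sub_add_cancel hb]
    ring
  have h1 : (Coef_N k a b P Q w s).det.eval z = (Polynomial.evalRingHom z) (Coef_N k a b P Q w s).det := rfl
  rw [h1, RingHom.map_det, key, Matrix.det_smul, ← RingHom.map_det, Fintype.card_fin, ← pow_mul]
  rfl

private theorem Coef_int (hCont : StCont) (k a b : ℕ) (μ : Measure (V k)) (hμ : μ.IsAddHaarMeasure) (P Q : MvPolynomial (Fin (k + 3)) ℝ)
    (w : Fin (k + 3) → Fin (k + 3) → ℝ) (j : ℕ) :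
    IntegrableOn (fun y : V k => ((Coef_N k a b P Q w (hat y)).det).coeff j) (Metric.ball 0 1) μ := by
  have hc : Continuous (fun s : Fin (k + 2) → ℝ => ((Coef_N k a b P Q w s).det).coeff j) :=
    hCont k a b (max a b - a) (max a b - b) P Q w j
  have hm : Measurable (fun y : V k => hat y) := by
    refine measurable_pi_lambda _ (fun i => ?_)
    unfold hat
    exact (measurable_norm.inv).mul (by fun_prop)
  have hK : IsCompact (Set.Icc (fun _ => (-1 : ℝ)) (fun _ => (1 : ℝ)) : Set (Fin (k + 2) → ℝ)) := isCompact_Icc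
  obtain ⟨C, hC⟩ := hK.exists_bound_of_continuousOn hc.continuousOn
  have hfin : μ (Metric.ball (0 : V k) 1) ≠ ⊤ := measure_ball_lt_top.ne
  refine Measure.integrableOn_of_bounded (M := C) hfin (hc.measurable.comp hm).aestronglyMeasurable ?_
  refine Filter.Eventually.of_forall (fun y => hC _ ?_)
  have hle : ∀ i, |hat y i| ≤ 1 := by
    intro i
    unfold hat
    rw [abs_mul, abs_inv, abs_norm]
    have h1 : |y i| ≤ ‖y‖ := by
      have := EuclideanSpace.norm_eq y
      have h2 : ‖y i‖ ≤ ‖y‖ := PiLp.norm_apply_le y i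
      simpa using h2
    by_cases h0 : ‖y‖ = 0
    · rw [h0]; simp
    · have hpos : 0 < ‖y‖ := lt_of_le_of_ne (norm_nonneg _) (Ne.symm h0)
      rw [inv_mul_le_iff₀ hpos]
      simpa using h1
  exact ⟨fun i => (abs_le.1 (hle i)).1, fun i => (abs_le.1 (hle i)).2⟩

private theorem Coef_circleL (p : Polynomial ℂ) (δ : ℝ) (hδ : 0 < δ)
    (h : ∀ φ : ℝ, |φ| < δ → p.eval (Complex.exp (φ * Complex.I)) = 0) : p = 0 := by
  refine Polynomial.eq_zero_of_infinite_isRoot p ?_
  set η : ℝ := min δ 1 / 2 with hη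
  have hη0 : 0 < η := by
    have : 0 < min δ 1 := lt_min hδ one_pos
    linarith
  have hηδ : η < δ := by
    have h1 : 0 < min δ 1 := lt_min hδ one_pos
    have h2 : min δ 1 ≤ δ := min_le_left _ _
    linarith
  have hη1 : η < 1 := by
    have h1 : 0 < min δ 1 := lt_min hδ one_pos
    have h2 : min δ 1 ≤ 1 := min_le_right _ _
    linarith
  have hle : ∀ n : ℕ, η / ((n : ℝ) + 1) ≤ η := by
    intro n
    have hn : (0 : ℝ) ≤ (n : ℝ) := by positivity
    exact div_le_self hη0.le (by linarith)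
  have hpos : ∀ n : ℕ, 0 < η / ((n : ℝ) + 1) := by
    intro n
    positivity
  have hinj : Function.Injective (fun n : ℕ => Complex.exp (((η / ((n : ℝ) + 1) : ℝ) : ℂ) * Complex.I)) := by
    intro m n hmn
    have hr : ∀ n : ℕ, (η / ((n : ℝ) + 1) : ℝ) ∈ Set.Ioc (-Real.pi) Real.pi := by
      intro n
      have h1 := hpos n
      have h2 := hle n
      have h3 := Real.pi_gt_three
      exact ⟨by linarith, by linarith⟩
    have ha : ∀ n : ℕ, Complex.arg (Complex.exp (((η / ((n : ℝ) + 1) : ℝ) : ℂ) * Complex.I)) = η / ((n : ℝ) + 1) := by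
      intro n
      rw [Complex.exp_mul_I]
      exact Complex.arg_cos_add_sin_mul_I (hr n)
    have h1 := congrArg Complex.arg hmn
    simp only [ha] at h1
    have hm1 : ((m : ℝ) + 1) ≠ 0 := by positivity
    have hn1 : ((n : ℝ) + 1) ≠ 0 := by positivity
    rw [div_eq_div_iff hm1 hn1] at h1
    have h2 := mul_left_cancel₀ hη0.ne' h1
    have h3 : (m : ℝ) = n := by linarith
    exact_mod_cast h3
  refine Set.infinite_of_injective_forall_mem hinj (fun n => ?_)
  refine h _ ?_
  rw [abs_of_pos (hpos n)]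
  exact lt_of_le_of_lt (hle n) hηδ

theorem hExt : StExt := by
  intro k a b μ P Q w c δ hμ hP hQ hδ hc
  set n : ℕ := (k + 2) * (2 * max a b) + 1 with hn
  have hdeg : ∀ s : Fin (k + 2) → ℝ, (Coef_N k a b P Q w s).det.natDegree < n := by
    intro s
    have := Coef_deg qTop qPolA k a b P Q hP hQ w s
    omega
  set κ : ℕ → ℂ := fun j => ∫ y in Metric.ball 0 1, ((Coef_N k a b P Q w (hat y)).det).coeff j ∂μ with hκ
  have hint := Coef_int qCont k a b μ hμ P Q w
  have hsum : ∀ φ : ℝ, ∑ i ∈ Finset.range n, κ i * Complex.exp (φ * Complex.I) ^ i =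
      ((∫ y in Metric.ball 0 1, (Mat a P (frame w φ) (hat y) + Mat b Q (frame w φ) (hat y)).det ∂μ : ℝ) : ℂ) *
        Complex.exp (φ * Complex.I) ^ (max a b * (k + 2)) := by
    intro φ
    set z : ℂ := Complex.exp (φ * Complex.I) with hz
    have h1 : ∑ i ∈ Finset.range n, κ i * z ^ i =
        ∫ y in Metric.ball 0 1, (Coef_N k a b P Q w (hat y)).det.eval z ∂μ := by
      have h2 : ∀ y : V k, (Coef_N k a b P Q w (hat y)).det.eval z =
          ∑ i ∈ Finset.range n, (Coef_N k a b P Q w (hat y)).det.coeff i * z ^ i :=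
        fun y => Polynomial.eval_eq_sum_range' (hdeg _) z
      simp_rw [h2]
      rw [integral_finsetSum]
      · refine Finset.sum_congr rfl (fun i _ => ?_)
        rw [integral_mul_const]
      · intro i _
        exact (hint i).mul_const _
    rw [h1]
    have h3 : ∀ y : V k, (Coef_N k a b P Q w (hat y)).det.eval z =
        z ^ (max a b * (k + 2)) * (((Mat a P (frame w φ) (hat y) + Mat b Q (frame w φ) (hat y)).det : ℝ) : ℂ) :=
      fun y => Coef_eval qEv k a b P Q hP hQ w (hat y) φ
    simp_rw [h3]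
    rw [integral_const_mul, integral_complex_ofReal]
    ring
  set p : Polynomial ℂ := (∑ i ∈ Finset.range n, Polynomial.C (κ i) * Polynomial.X ^ i) -
    Polynomial.C (c : ℂ) * Polynomial.X ^ (max a b * (k + 2)) with hp
  have hpe : ∀ z : ℂ, p.eval z = ∑ i ∈ Finset.range n, κ i * z ^ i - (c : ℂ) * z ^ (max a b * (k + 2)) := by
    intro z
    rw [hp, Polynomial.eval_sub, Polynomial.eval_finsetSum]
    simp only [Polynomial.eval_mul, Polynomial.eval_C, Polynomial.eval_pow, Polynomial.eval_X]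
  have hp0 : p = 0 := by
    refine Coef_circleL p δ hδ (fun φ hφ => ?_)
    rw [hpe, hsum φ, hc φ hφ, sub_self]
  intro φ
  have h0 := hpe (Complex.exp (φ * Complex.I))
  rw [hp0, Polynomial.eval_zero, hsum φ] at h0
  have h1 := (sub_eq_zero.1 h0.symm)
  have hz : Complex.exp (φ * Complex.I) ^ (max a b * (k + 2)) ≠ 0 := pow_ne_zero _ (Complex.exp_ne_zero _)
  exact_mod_cast mul_right_cancel₀ hz h1

end Pool.Agent.Helper36.LPS
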